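import Pool.Agent.T2H39.RE.Core
import Pool.Agent.T2H39.RE.Rep
import Pool.Agent.T2H39.RE.AllB
import Pool.Agent.Results.MP_a59382_lc.QuadraticFamilies

/-!
# Every existential definition of the pole relation uses varieties with infinitely many classes of rational points for R-equivalence

Let `K` be any number field. An existential formula in two variables is (over a field) a finite
disjunction of *pieces* `∃ z, f₁(a, b, z) = … = f_r(a, b, z) = 0 ∧ g(a, b, z) ≠ 0`. For `b ∈ K` the
points `(a, z)` of a piece `W` form a quasi-affine variety `W_b` over `K`.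

Two `K`-points of a variety are directly R-equivalent (Manin) if they are on a rational curve over
`K`, that is, if they are values at two elements of `K` of a rational map from the line to the
variety. The R-equivalence is the equivalence relation generated by this. We use a still coarser
relation, the *closed R-equivalence* `rEquiv`: the smallest equivalence relation on the set of the
`K`-points which contains the R-equivalence and whose classes are closed in the Zariski topology (of
the set of `K`-points).

(1) Suppose that an existential formula defines the relation `R_K` of the problem; some of its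
disjuncts may be relations as in the starting result `QuadraticFamilies` (a relation `Union`), the
others are pieces `W i`. Then for every `b` in `K` (for which the sets in `Union` are blocks) there
is a piece `W i` such that the `K`-points of `(W i)_b` form infinitely many classes for the closed
R-equivalence, so infinitely many classes for the R-equivalence. For `k = h = l = 0` all disjuncts are
pieces, and the conclusion holds for all `b` in `K`.

(2) If for an element `b` of `K` a piece implies that `a` has no pole above a rich set `Q` of primes at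
which `b` has none, then `a` is constant on the classes for the closed R-equivalence of the `K`-points
`(a, z)`.

(3) If for an element `b` of `K` a finite union as in (1) implies that `a` has no pole above `Q` at
which `b` has none, and the `K`-points of the pieces form finitely many classes, then for this `b` it
holds for a thin set of `a`, the pieces hold for finitely many `a` only, and infinitely many rational
integers are missed.

(4) So the theorem applies to all classes of varieties for which the R-equivalence is finite. Finite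
unions of unirational sets have finitely many classes; they include the systems of quadratic
equations `Xᵀ A X = B` for an `m × n` matrix `X` (representations of the form `B` by the form `A`), for
all symmetric or alternating matrices `A` and all invertible `B` (for `m = n` and `A = B` these are
the orthogonal and symplectic groups).

The proof. The ring of the elements without pole above the primes of `Q` above which `b` has no pole
is flat: a rational function in one variable over `K` all of whose values are in the ring is constant. So `a` is constant along rational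
curves, and `{(x, y) : a(x) = a(y)}` is an equivalence relation with closed classes. For (4): if
`X₀ᵀ A X₀ = B` and `u + ε uᵀ = Vᵀ A V`, where `Aᵀ = ε A`, then `X = X₀ - V u⁻¹ Vᵀ A X₀` is a
representation, and all `X` for which `B - Xᵀ A X₀` is invertible are of this form; finitely many of
these open sets cover, as `B - Xᵀ A (-X) = 2 B` is invertible.
-/

set_option autoImplicit false

namespace Pool.Agent.Results.MP_a59382_lc.RationalEquivalence

open MvPolynomial Pool.Agent.TH766.HP Pool.Agent.TH783.CE Pool.Agent.T2H67.WA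
open Pool.Agent.T2H39.RE (Direct IsRClosed rEquiv Pts Rep mat)
open Pool.Agent.R565.PU (Unirational)
open Pool.Agent.Results.MP_a59382_lc.CubicEquations (PoleRel)
open Pool.Agent.Results.MP_a59382_lc.QuadraticFamilies (Union)
open Pool.Agent.Results.MP_a59382_lc.UnirationalFibres (Block)

theorem pole_iff {K : Type} [Field K] [NumberField K] {Q : Set ℕ} {b : K} (hb : b ∈ NoPole K Q)
    (a : K) : PoleRel K Q a b ↔ a ∈ NoPole K Q := by
  constructor
  · intro ha v hv
    by_contra hcon
    exact absurd (ha v hv (not_le.1 hcon)) (not_lt.2 (hb v hv))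
  · intro ha v hv h
    exact absurd h (not_lt.2 (ha v hv))

theorem int_noPole {K : Type} [Field K] [NumberField K] (Q : Set ℕ) (t : ℤ) :
    (t : K) ∈ NoPole K Q := by
  intro v _
  have h3 : v.valuation K ((t : NumberField.RingOfIntegers K) : K) ≤ 1 :=
    v.valuation_le_one (K := K) (t : NumberField.RingOfIntegers K)
  have h4 : ((t : NumberField.RingOfIntegers K) : K) = (t : K) := by simp
  rwa [h4] at h3

theorem pole_int {K : Type} [Field K] [NumberField K] (Q : Set ℕ) (t : ℤ) (b : K) :
    PoleRel K Q (t : K) b := fun v hv h => absurd h (not_lt.2 (int_noPole Q t v hv))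

theorem pole_mono {K : Type} [Field K] [NumberField K] {Q : Set ℕ} {M : ℕ} {a b : K}
    (h : PoleRel K Q a b) : PoleRel K {p | p ∈ Q ∧ M < p} a b := by
  rintro v ⟨p, hp, ⟨hpQ, -⟩, hpv⟩ h1
  exact h v ⟨p, hp, hpQ, hpv⟩ h1

theorem result :
    -- (1) every existential definition of `R_K` has a disjunct with infinitely many classes
    (∀ (K : Type) [Field K] [NumberField K] (k h l s : ℕ) (n : Fin k → ℕ) (m : Fin h → ℕ)
      (f : ∀ i, MvPolynomial (Fin 2 ⊕ Fin (n i)) K) (g : ∀ i, MvPolynomial (Fin 3 ⊕ Fin (m i)) K),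
      (∀ i, ∀ e ∈ (f i).support, e (Sum.inl 0) + ∑ j, e (Sum.inr j) ≤ 3) →
      (∀ i, ∀ e ∈ (g i).support, e (Sum.inl 0) + ∑ j, e (Sum.inr j) ≤ 2) →
      ∀ (r : Fin l → ℕ) (d : ∀ i, Fin (r i) → ℕ) (S : ∀ i, K → ∀ j, Set (Fin (d i j + 1) → K))
        (p q : ∀ i, K → MvPolynomial ((j : Fin (r i)) × Fin (d i j + 1)) K) (W : Fin s → Piece K),
      (∀ a b : K, (Union f g S p q a b ∨ ∃ i, (W i).Rel a b) ↔ PoleRel K {p | p % 4 = 1} a b) →
      ∀ b : K, (∀ i j, Block (S i b j)) →
        ∃ i, {a : K | (W i).Rel a b}.Infinite ∧ Infinite (Quotient (rEquiv (Pts (W i) b)))) ∧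
    -- (2) for a piece inside the pole relation `a` is constant on the classes
    (∀ (K : Type) [Field K] [NumberField K] (Q : Set ℕ), Rich Q → ∀ (W : Piece K) (b : K),
      (∀ a, W.Rel a b → PoleRel K Q a b) → ∀ x y : Pts W b, rEquiv (Pts W b) x y →
        x.1 0 = y.1 0) ∧
    -- (3) finite unions, for every rich set of primes
    (∀ (K : Type) [Field K] [NumberField K] (Q : Set ℕ), Rich Q →
      ∀ (k h l s : ℕ) (n : Fin k → ℕ) (m : Fin h → ℕ)
      (f : ∀ i, MvPolynomial (Fin 2 ⊕ Fin (n i)) K) (g : ∀ i, MvPolynomial (Fin 3 ⊕ Fin (m i)) K),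
      (∀ i, ∀ e ∈ (f i).support, e (Sum.inl 0) + ∑ j, e (Sum.inr j) ≤ 3) →
      (∀ i, ∀ e ∈ (g i).support, e (Sum.inl 0) + ∑ j, e (Sum.inr j) ≤ 2) →
      ∀ (r : Fin l → ℕ) (d : ∀ i, Fin (r i) → ℕ) (S : ∀ i, K → ∀ j, Set (Fin (d i j + 1) → K))
        (p q : ∀ i, K → MvPolynomial ((j : Fin (r i)) × Fin (d i j + 1)) K) (W : Fin s → Piece K),
      ∀ b : K, (∀ i j, Block (S i b j)) →
      (∀ i, Finite (Quotient (rEquiv (Pts (W i) b)))) →
      (∀ a : K, (Union f g S p q a b ∨ ∃ i, (W i).Rel a b) → PoleRel K Q a b) →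
      (∀ i, {a : K | (W i).Rel a b}.Finite) ∧
      Thin {a : K | Union f g S p q a b ∨ ∃ i, (W i).Rel a b} ∧
      ∀ B : ℤ, ∃ t : ℤ, B < t ∧ PoleRel K Q (t : K) b ∧
        ¬ (Union f g S p q (t : K) b ∨ ∃ i, (W i).Rel (t : K) b)) ∧
    -- (4) finite unions of unirational sets have finitely many classes,
    (∀ (K : Type) [Field K] [CharZero K] (n k : ℕ) (Y : Fin k → Set (Fin n → K)),
      (∀ i, Unirational (Y i)) → Finite (Quotient (rEquiv (⋃ i, Y i)))) ∧
    -- and the systems `Xᵀ A X = B`, `A` symmetric or alternating, `B` invertible, are such unions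
    (∀ (K : Type) [Field K] [CharZero K] (m n : ℕ) (A : Matrix (Fin m) (Fin m) K)
      (B : Matrix (Fin n) (Fin n) K), A.transpose = A ∨ A.transpose = -A → B.det ≠ 0 →
      ∃ (k : ℕ) (Y : Fin k → Set (Fin (m * n) → K)), (∀ i, Unirational (Y i)) ∧
        Rep A B = ⋃ i, Y i) := by
  have fin3 : ∀ (K : Type) [Field K] [NumberField K] (s : ℕ) (W : Fin s → Piece K) (b : K),
      (∀ i, {a : K | (W i).Rel a b}.Finite) → {a : K | ∃ i, (W i).Rel a b}.Finite := by
    intro K _ _ s W b h1
    have : {a : K | ∃ i, (W i).Rel a b} = ⋃ i, {a : K | (W i).Rel a b} := by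
      ext a
      simp
    rw [this]
    exact Set.finite_iUnion h1
  have main : ∀ (K : Type) [Field K] [NumberField K] (Q : Set ℕ), Rich Q →
      ∀ (k h l s : ℕ) (n : Fin k → ℕ) (m : Fin h → ℕ)
      (f : ∀ i, MvPolynomial (Fin 2 ⊕ Fin (n i)) K) (g : ∀ i, MvPolynomial (Fin 3 ⊕ Fin (m i)) K),
      (∀ i, ∀ e ∈ (f i).support, e (Sum.inl 0) + ∑ j, e (Sum.inr j) ≤ 3) →
      (∀ i, ∀ e ∈ (g i).support, e (Sum.inl 0) + ∑ j, e (Sum.inr j) ≤ 2) →
      ∀ (r : Fin l → ℕ) (d : ∀ i, Fin (r i) → ℕ) (S : ∀ i, K → ∀ j, Set (Fin (d i j + 1) → K))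
        (p q : ∀ i, K → MvPolynomial ((j : Fin (r i)) × Fin (d i j + 1)) K) (W : Fin s → Piece K),
      ∀ b ∈ NoPole K Q, (∀ i j, Block (S i b j)) → (∀ i, {a : K | (W i).Rel a b}.Finite) →
      (∀ a : K, (Union f g S p q a b ∨ ∃ i, (W i).Rel a b) → PoleRel K Q a b) →
      Thin {a : K | Union f g S p q a b ∨ ∃ i, (W i).Rel a b} ∧
      ∀ B : ℤ, ∃ t : ℤ, B < t ∧ PoleRel K Q (t : K) b ∧
        ¬ (Union f g S p q (t : K) b ∨ ∃ i, (W i).Rel (t : K) b) := by
    intro K _ _ Q hQ k h l s n m f g hf hg r d S p q W b hb hS h1 hU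
    obtain ⟨-, hQF, -⟩ := QuadraticFamilies.result
    obtain ⟨h2, -⟩ := hQF K Q hQ k h l n m f g hf hg r d S p q b hb hS
      fun a ha => hU a (Or.inl ha)
    have h4 : Thin {a : K | Union f g S p q a b ∨ ∃ i, (W i).Rel a b} :=
      (h2.union (Thin.of_finite (fin3 K s W b h1))).mono fun a ha => ha
    refine ⟨h4, fun B => ?_⟩
    obtain ⟨t, ht, ht'⟩ := h4.exists_int B
    exact ⟨t, ht, pole_int Q t b, ht'⟩
  refine ⟨?_, ?_, ?_, ?_, ?_⟩
  · intro K _ _ k h l s n m f g hf hg r d S p q W hiff b hS
    obtain ⟨M, hb⟩ := Pool.Agent.T2H39.RE.exists_noPole {p | p % 4 = 1} b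
    have hQ := Pool.Agent.T2H39.RE.rich_gt four M
    have hno : ∀ i a, (W i).Rel a b → a ∈ NoPole K {p | p ∈ {p | p % 4 = 1} ∧ M < p} :=
      fun i a ha => (pole_iff hb a).1 (pole_mono ((hiff a b).1 (Or.inr ⟨i, ha⟩)))
    obtain ⟨i, hi⟩ : ∃ i, {a : K | (W i).Rel a b}.Infinite := by
      by_contra hcon
      simp only [Set.Infinite, not_exists, not_not] at hcon
      obtain ⟨-, h1⟩ := main K _ hQ k h l s n m f g hf hg r d S p q W b hb hS hcon
        fun a ha => pole_mono ((hiff a b).1 ha)
      obtain ⟨t, -, -, ht2⟩ := h1 0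
      exact ht2 ((hiff t b).2 (pole_int _ t b))
    refine ⟨i, hi, ?_⟩
    rw [← not_finite_iff_infinite]
    intro hfin
    exact hi (Pool.Agent.T2H39.RE.finite_rel (flat_noPole (K := K) hQ) (W i) b hfin (hno i))
  · intro K _ _ Q hQ W b hno x y hxy
    obtain ⟨M, hb⟩ := Pool.Agent.T2H39.RE.exists_noPole Q b
    have hQ' := Pool.Agent.T2H39.RE.rich_gt hQ M
    refine Pool.Agent.T2H39.RE.const_of_flat (flat_noPole (K := K) hQ') (fun z hz => ?_) hxy
    exact (pole_iff hb _).1 (pole_mono (hno _ ((Pool.Agent.T2H39.RE.rel_iff W _ b).2 ⟨z, hz, rfl⟩)))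
  · intro K _ _ Q hQ k h l s n m f g hf hg r d S p q W b hS hW hU
    obtain ⟨M, hb⟩ := Pool.Agent.T2H39.RE.exists_noPole Q b
    have hQ' := Pool.Agent.T2H39.RE.rich_gt hQ M
    have h1 : ∀ i, {a : K | (W i).Rel a b}.Finite := fun i =>
      Pool.Agent.T2H39.RE.finite_rel (flat_noPole (K := K) hQ') (W i) b (hW i) fun a ha =>
        (pole_iff hb a).1 (pole_mono (hU a (Or.inr ⟨i, ha⟩)))
    obtain ⟨h2, h3⟩ := main K _ hQ' k h l s n m f g hf hg r d S p q W b hb hS h1
      fun a ha => pole_mono (hU a ha)
    refine ⟨h1, h2, fun B => ?_⟩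
    obtain ⟨t, ht, -, ht'⟩ := h3 B
    exact ⟨t, ht, pole_int Q t b, ht'⟩
  · intro K _ _ n k Y hY
    exact Pool.Agent.T2H39.RE.finite_classes Y hY
  · intro K _ _ m n A B hA hB
    rcases hA with hA | hA
    · exact Pool.Agent.T2H39.RE.rep_cover A B 1 (by rw [hA, one_smul]) (by ring) hB
    · exact Pool.Agent.T2H39.RE.rep_cover A B (-1) (by rw [hA, neg_smul, one_smul]) (by ring) hB

end Pool.Agent.Results.MP_a59382_lc.RationalEquivalence
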