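import Pool.Agent.T2H67.WA.Core
import Pool.Agent.Results.MP_a59382_lc.QuadraticFamilies

/-!
# Every existential definition of the pole relation uses varieties without weak approximation

Let `K` be any number field. An existential formula in two variables is (over a field) a finite
disjunction of *pieces* `∃ z, f₁(a, b, z) = … = f_r(a, b, z) = 0 ∧ g(a, b, z) ≠ 0`. For `b ∈ K` the
points `(a, z)` of a piece `W` form a quasi-affine variety `W_b` over `K`.

For a prime `p` and an embedding `σ : K → ℚ_p` (that is a place of degree one of `K` above `p`),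
`W.DenseAt b σ` says that the `K`-points of `W_b` are dense in its `ℚ_p`-points.
`WeakApprox W Q b` says that this holds for all `σ`, for all but finitely many primes of `Q`; this
is a weak form of weak weak approximation.

(1) Suppose that an existential formula defines the relation `R_K` of the problem; some of its
disjuncts may be relations as in the starting result `QuadraticFamilies` (a relation `Union`), the
others are pieces `W i`. Then for every `b` without pole above the primes `1 mod 4` (for which the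
sets in `Union` are blocks) there are a piece `W i` and a nonconstant integer polynomial `h` such
that weak approximation fails for `(W i)_b` at a place above each prime `p = 1 mod 4` for which `h`
has a root in `ℚ_p`; there are infinitely many such `p`. For `k = h = l = 0` all disjuncts are pieces.

(2) The same for a single piece and any rich set `Q` of primes: if a piece implies that `a` has no
pole above `Q`, and holds for infinitely many `a`, then weak approximation fails for it as in (1).

(3) If a finite union as in (1) implies that `a` has no pole above `Q` at which `b` has none, and the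
pieces satisfy `WeakApprox` for some `b` without pole, then for this `b` it holds for a thin set of
`a`, the pieces hold for finitely many `a` only, and infinitely many rational integers are missed.

The proof. If a piece holds for infinitely many `a ∈ K` then it has points with algebraic functions of
`a` as coordinates. By Puiseux expansions at infinity there are points over `ℚ_p` with arbitrarily
large first coordinate, if `h` has a root in `ℚ_p`. A point over `K` which is near to one of these
points has a pole at a place above `p`.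
-/

set_option autoImplicit false

namespace Pool.Agent.Results.MP_a59382_lc.WeakApproximation

open MvPolynomial Pool.Agent.TH766.HP Pool.Agent.TH783.CE Pool.Agent.T2H67.WA
open Pool.Agent.Results.MP_a59382_lc.CubicEquations (PoleRel)
open Pool.Agent.Results.MP_a59382_lc.QuadraticFamilies (Union)
open Pool.Agent.Results.MP_a59382_lc.UnirationalFibres (Block)

/-- The `K`-points of `W_b` are dense in the points over the completions of degree one above all but
finitely many primes of `Q`. -/
def WeakApprox {K : Type} [Field K] (W : Piece K) (Q : Set ℕ) (b : K) : Prop :=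
  ∃ N : ℕ, ∀ (p : ℕ) [Fact p.Prime], p ∈ Q → N < p → ∀ σ : K →+* ℚ_[p], W.DenseAt b σ

/-- Weak approximation fails for `W_b` at a place of degree one above every prime of `Q` for which a
certain nonconstant integer polynomial `h` has a root in `ℚ_p`, and there are infinitely many such
primes. -/
def FailsOften {K : Type} [Field K] (W : Piece K) (Q : Set ℕ) (b : K) : Prop :=
  ∃ h : Polynomial ℤ, 0 < h.natDegree ∧
    (∀ (p : ℕ) [Fact p.Prime], p ∈ Q → (∃ t : ℚ_[p], Polynomial.aeval t h = 0) →
      ∃ σ : K →+* ℚ_[p], ¬ W.DenseAt b σ) ∧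
    ∀ N : ℕ, ∃ (p : ℕ) (_ : Fact p.Prime), p ∈ Q ∧ N < p ∧
      ∃ t : ℚ_[p], Polynomial.aeval t h = 0

theorem fails {K : Type} [Field K] [NumberField K] {Q : Set ℕ} (hQ : Rich Q) (W : Piece K) (b : K)
    (hinf : {a | W.Rel a b}.Infinite) (hno : ∀ a, W.Rel a b → a ∈ NoPole K Q) :
    FailsOften W Q b := by
  obtain ⟨h, hh, hd⟩ := not_dense Q W b hinf hno
  refine ⟨h, hh, hd, fun N => ?_⟩
  obtain ⟨p, hp, hpQ, hN, hroot⟩ := hQ {h} N (by simpa using hh)
  exact ⟨p, hp, hpQ, hN, hroot h (Finset.mem_singleton_self _)⟩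

theorem finite_of_approx {K : Type} [Field K] [NumberField K] {Q : Set ℕ} (hQ : Rich Q)
    (W : Piece K) (b : K) (hW : WeakApprox W Q b) (hno : ∀ a, W.Rel a b → a ∈ NoPole K Q) :
    {a | W.Rel a b}.Finite := by
  by_contra hcon
  obtain ⟨h, -, hd, hi⟩ := fails hQ W b hcon hno
  obtain ⟨N, hN⟩ := hW
  obtain ⟨p, hp, hpQ, hpN, ht⟩ := hi N
  obtain ⟨σ, hσ⟩ := hd p hpQ ht
  exact hσ (hN p hpQ hpN σ)

theorem pole_iff {K : Type} [Field K] [NumberField K] {Q : Set ℕ} {b : K} (hb : b ∈ NoPole K Q)
    (a : K) : PoleRel K Q a b ↔ a ∈ NoPole K Q := by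
  constructor
  · intro ha v hv
    by_contra hcon
    exact absurd (ha v hv (not_le.1 hcon)) (not_lt.2 (hb v hv))
  · intro ha v hv h
    exact absurd h (not_lt.2 (ha v hv))

theorem int_noPole {K : Type} [Field K] [NumberField K] (Q : Set ℕ) (t : ℤ) :
    (t : K) ∈ NoPole K Q := by
  intro v _
  have h3 : v.valuation K ((t : NumberField.RingOfIntegers K) : K) ≤ 1 :=
    v.valuation_le_one (K := K) (t : NumberField.RingOfIntegers K)
  have h4 : ((t : NumberField.RingOfIntegers K) : K) = (t : K) := by simp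
  rwa [h4] at h3

theorem result :
    -- (1) every existential definition of `R_K` has a disjunct for which weak approximation fails
    (∀ (K : Type) [Field K] [NumberField K] (k h l s : ℕ) (n : Fin k → ℕ) (m : Fin h → ℕ)
      (f : ∀ i, MvPolynomial (Fin 2 ⊕ Fin (n i)) K) (g : ∀ i, MvPolynomial (Fin 3 ⊕ Fin (m i)) K),
      (∀ i, ∀ e ∈ (f i).support, e (Sum.inl 0) + ∑ j, e (Sum.inr j) ≤ 3) →
      (∀ i, ∀ e ∈ (g i).support, e (Sum.inl 0) + ∑ j, e (Sum.inr j) ≤ 2) →
      ∀ (r : Fin l → ℕ) (d : ∀ i, Fin (r i) → ℕ) (S : ∀ i, K → ∀ j, Set (Fin (d i j + 1) → K))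
        (p q : ∀ i, K → MvPolynomial ((j : Fin (r i)) × Fin (d i j + 1)) K) (W : Fin s → Piece K),
      (∀ a b : K, (Union f g S p q a b ∨ ∃ i, (W i).Rel a b) ↔ PoleRel K {p | p % 4 = 1} a b) →
      ∀ b ∈ NoPole K {p | p % 4 = 1}, (∀ i j, Block (S i b j)) →
        ∃ i, {a : K | (W i).Rel a b}.Infinite ∧ FailsOften (W i) {p | p % 4 = 1} b) ∧
    -- (2) every piece with infinitely many values, for every rich set of primes
    (∀ (K : Type) [Field K] [NumberField K] (Q : Set ℕ), Rich Q → ∀ (W : Piece K) (b : K),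
      (∀ a, W.Rel a b → a ∈ NoPole K Q) → {a : K | W.Rel a b}.Infinite → FailsOften W Q b) ∧
    -- (3) finite unions, for every rich set of primes
    (∀ (K : Type) [Field K] [NumberField K] (Q : Set ℕ), Rich Q →
      ∀ (k h l s : ℕ) (n : Fin k → ℕ) (m : Fin h → ℕ)
      (f : ∀ i, MvPolynomial (Fin 2 ⊕ Fin (n i)) K) (g : ∀ i, MvPolynomial (Fin 3 ⊕ Fin (m i)) K),
      (∀ i, ∀ e ∈ (f i).support, e (Sum.inl 0) + ∑ j, e (Sum.inr j) ≤ 3) →
      (∀ i, ∀ e ∈ (g i).support, e (Sum.inl 0) + ∑ j, e (Sum.inr j) ≤ 2) →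
      ∀ (r : Fin l → ℕ) (d : ∀ i, Fin (r i) → ℕ) (S : ∀ i, K → ∀ j, Set (Fin (d i j + 1) → K))
        (p q : ∀ i, K → MvPolynomial ((j : Fin (r i)) × Fin (d i j + 1)) K) (W : Fin s → Piece K),
      ∀ b ∈ NoPole K Q, (∀ i j, Block (S i b j)) → (∀ i, WeakApprox (W i) Q b) →
      (∀ a : K, (Union f g S p q a b ∨ ∃ i, (W i).Rel a b) → PoleRel K Q a b) →
      (∀ i, {a : K | (W i).Rel a b}.Finite) ∧
      Thin {a : K | Union f g S p q a b ∨ ∃ i, (W i).Rel a b} ∧
      ∀ B : ℤ, ∃ t : ℤ, B < t ∧ PoleRel K Q (t : K) b ∧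
        ¬ (Union f g S p q (t : K) b ∨ ∃ i, (W i).Rel (t : K) b)) := by
  have fin3 : ∀ (K : Type) [Field K] [NumberField K] (s : ℕ) (W : Fin s → Piece K) (b : K),
      (∀ i, {a : K | (W i).Rel a b}.Finite) → {a : K | ∃ i, (W i).Rel a b}.Finite := by
    intro K _ _ s W b h1
    have : {a : K | ∃ i, (W i).Rel a b} = ⋃ i, {a : K | (W i).Rel a b} := by
      ext a
      simp
    rw [this]
    exact Set.finite_iUnion h1
  have main : ∀ (K : Type) [Field K] [NumberField K] (Q : Set ℕ), Rich Q →
      ∀ (k h l s : ℕ) (n : Fin k → ℕ) (m : Fin h → ℕ)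
      (f : ∀ i, MvPolynomial (Fin 2 ⊕ Fin (n i)) K) (g : ∀ i, MvPolynomial (Fin 3 ⊕ Fin (m i)) K),
      (∀ i, ∀ e ∈ (f i).support, e (Sum.inl 0) + ∑ j, e (Sum.inr j) ≤ 3) →
      (∀ i, ∀ e ∈ (g i).support, e (Sum.inl 0) + ∑ j, e (Sum.inr j) ≤ 2) →
      ∀ (r : Fin l → ℕ) (d : ∀ i, Fin (r i) → ℕ) (S : ∀ i, K → ∀ j, Set (Fin (d i j + 1) → K))
        (p q : ∀ i, K → MvPolynomial ((j : Fin (r i)) × Fin (d i j + 1)) K) (W : Fin s → Piece K),
      ∀ b ∈ NoPole K Q, (∀ i j, Block (S i b j)) → (∀ i, {a : K | (W i).Rel a b}.Finite) →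
      (∀ a : K, (Union f g S p q a b ∨ ∃ i, (W i).Rel a b) → PoleRel K Q a b) →
      Thin {a : K | Union f g S p q a b ∨ ∃ i, (W i).Rel a b} ∧
      ∀ B : ℤ, ∃ t : ℤ, B < t ∧ PoleRel K Q (t : K) b ∧
        ¬ (Union f g S p q (t : K) b ∨ ∃ i, (W i).Rel (t : K) b) := by
    intro K _ _ Q hQ k h l s n m f g hf hg r d S p q W b hb hS h1 hU
    obtain ⟨-, hQF, -⟩ := QuadraticFamilies.result
    obtain ⟨h2, -⟩ := hQF K Q hQ k h l n m f g hf hg r d S p q b hb hS
      fun a ha => hU a (Or.inl ha)
    have h4 : Thin {a : K | Union f g S p q a b ∨ ∃ i, (W i).Rel a b} :=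
      (h2.union (Thin.of_finite (fin3 K s W b h1))).mono fun a ha => ha
    refine ⟨h4, fun B => ?_⟩
    obtain ⟨t, ht, ht'⟩ := h4.exists_int B
    exact ⟨t, ht, (pole_iff hb _).2 (int_noPole Q t), ht'⟩
  refine ⟨?_, fun K _ _ Q hQ W b hno hinf => fails hQ W b hinf hno, ?_⟩
  · intro K _ _ k h l s n m f g hf hg r d S p q W hiff b hb hS
    have hno : ∀ i a, (W i).Rel a b → a ∈ NoPole K {p | p % 4 = 1} := fun i a ha =>
      (pole_iff hb a).1 ((hiff a b).1 (Or.inr ⟨i, ha⟩))
    obtain ⟨i, hi⟩ : ∃ i, {a : K | (W i).Rel a b}.Infinite := by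
      by_contra hcon
      push Not at hcon
      obtain ⟨-, h1⟩ := main K {p | p % 4 = 1} four k h l s n m f g hf hg r d S p q W b hb hS hcon
        fun a ha => (hiff a b).1 ha
      obtain ⟨t, -, ht1, ht2⟩ := h1 0
      exact ht2 ((hiff t b).2 ht1)
    exact ⟨i, hi, fails four (W i) b hi (hno i)⟩
  · intro K _ _ Q hQ k h l s n m f g hf hg r d S p q W b hb hS hW hU
    have h1 : ∀ i, {a : K | (W i).Rel a b}.Finite := fun i =>
      finite_of_approx hQ (W i) b (hW i) fun a ha =>
        (pole_iff hb a).1 (hU a (Or.inr ⟨i, ha⟩))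
    exact ⟨h1, main K Q hQ k h l s n m f g hf hg r d S p q W b hb hS h1 hU⟩

end Pool.Agent.Results.MP_a59382_lc.WeakApproximation
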